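import Mathlib
import Pool.Agent.P.MP_267911_gt.Omega

/-! The least weight of a group with compact closures of countable subgroups on which player P
has no stationary winning strategy is the splitting number. -/

set_option linter.unusedSectionVars false

open Filter Topology Set

namespace Pool.Agent.P.MP_13df43_gt.SW

open Pool.Agent.P.MP_267911_gt

/-- The infinite set `A` is not split by any member of the family. -/
def Unsplit (𝒮 : Set (Set ℕ)) : Prop :=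
  ∃ A : Set ℕ, A.Infinite ∧ ∀ S ∈ 𝒮, (A ∩ S).Finite ∨ (A \ S).Finite

theorem subseq_of_unsplit {X : Type} [TopologicalSpace X] {B : Set (Set X)}
    (hB : TopologicalSpace.IsTopologicalBasis B) (x : ℕ → X)
    (h : Unsplit ((fun b => x ⁻¹' b) '' B)) {K : Set X} (hK : IsCompact K) (hx : ∀ n, x n ∈ K) :
    ∃ (φ : ℕ → ℕ) (a : X), StrictMono φ ∧ Tendsto (fun k => x (φ k)) atTop (𝓝 a) := by
  obtain ⟨A, hA, hS⟩ := h
  have hφ : StrictMono (Nat.nth (· ∈ A)) := Nat.nth_strictMono hA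
  have hφA : ∀ k, Nat.nth (· ∈ A) k ∈ A := Nat.nth_mem_of_infinite hA
  obtain ⟨a, -, ha⟩ := hK.exists_mapClusterPt (f := atTop) (u := fun k => x (Nat.nth (· ∈ A) k))
    (le_principal_iff.2 (mem_map.2 (Eventually.of_forall fun k => hx _)))
  refine ⟨_, a, hφ, hB.nhds_hasBasis.tendsto_right_iff.2 fun b hb => ?_⟩
  rcases hS _ ⟨b, hb.1, rfl⟩ with h1 | h1
  · exfalso
    have h2 : ∃ᶠ k in atTop, x (Nat.nth (· ∈ A) k) ∈ b :=
      ha.frequently ((hB.isOpen hb.1).mem_nhds hb.2)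
    refine Nat.frequently_atTop_iff_infinite.1 h2 ((h1.preimage hφ.injective.injOn).subset ?_)
    exact fun k hk => ⟨hφA k, hk⟩
  · have h2 := (h1.preimage hφ.injective.injOn).eventually_cofinite_notMem
    rw [Nat.cofinite_eq_atTop] at h2
    filter_upwards [h2] with k hk
    by_contra hc
    exact hk ⟨hφA k, hc⟩

theorem unsplit_of_eventually {𝒮 : Set (Set ℕ)} {ψ : ℕ → ℕ} (hψ : StrictMono ψ)
    (h : ∀ S ∈ 𝒮, (∀ᶠ k in atTop, ψ k ∈ S) ∨ ∀ᶠ k in atTop, ψ k ∉ S) : Unsplit 𝒮 := by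
  refine ⟨range ψ, infinite_range_of_injective hψ.injective, fun S hS => ?_⟩
  rw [← Nat.cofinite_eq_atTop] at h
  rcases h S hS with h1 | h1
  · right
    refine ((eventually_cofinite.1 h1).image ψ).subset ?_
    rintro _ ⟨⟨k, rfl⟩, hk⟩
    exact ⟨k, hk, rfl⟩
  · left
    refine ((eventually_cofinite.1 h1).image ψ).subset ?_
    rintro _ ⟨⟨k, rfl⟩, hk⟩
    exact ⟨k, not_not.2 hk, rfl⟩

theorem unsplit_of_countable {𝒮 : Set (Set ℕ)} (h : 𝒮.Countable) : Unsplit 𝒮 := by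
  classical
  have := h.to_subtype
  obtain ⟨a, φ, hφ, hlim⟩ := CompactSpace.tendsto_subseq
    (fun (n : ℕ) (S : 𝒮) => decide (n ∈ S.1))
  refine unsplit_of_eventually hφ fun S hS => ?_
  have h1 := tendsto_pi_nhds.1 hlim ⟨S, hS⟩
  rw [nhds_discrete, tendsto_pure] at h1
  cases ha : a ⟨S, hS⟩
  · right
    filter_upwards [h1] with k hk
    simpa [ha] using hk
  · left
    filter_upwards [h1] with k hk
    simpa [ha] using hk

theorem positive {G : Type} [Group G] [TopologicalSpace G] {B : Set (Set G)}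
    (hB : TopologicalSpace.IsTopologicalBasis B)
    (h : ∀ 𝒮 : Set (Set ℕ), Cardinal.mk 𝒮 ≤ Cardinal.mk B → Unsplit 𝒮)
    (hG : ∀ H : Subgroup G, Countable H → IsCompact (closure (H : Set G))) (x : ℕ → G) :
    ∃ (φ : ℕ → ℕ) (a : G), StrictMono φ ∧ Tendsto (fun k => x (φ k)) atTop (𝓝 a) := by
  have : Countable (FreeGroup ℕ) := inferInstanceAs (Countable (Quot _))
  refine subseq_of_unsplit hB x (h _ Cardinal.mk_image_le)
    (hG (FreeGroup.lift x).range (MonoidHom.rangeRestrict_surjective _).countable) fun n => ?_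
  exact subset_closure ⟨FreeGroup.of n, FreeGroup.lift_apply_of⟩

/-- The two-element discrete group. -/
abbrev C2 : Type := Multiplicative (ZMod 2)

/-- The sign of a bit. -/
def sg (b : Bool) : C2 := if b then Multiplicative.ofAdd 1 else 1

theorem sg_inj : Function.Injective sg := by decide

theorem exists_basis {I : Type} (Γ : Subgroup (I → C2)) :
    ∃ B : Set (Set Γ), TopologicalSpace.IsTopologicalBasis B ∧
      Cardinal.mk B ≤ max Cardinal.aleph0 (Cardinal.mk I) := by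
  classical
  let cyl : List (I × C2) → Set Γ := fun L => {f | ∀ p ∈ L, f.1 p.1 = p.2}
  refine ⟨range cyl, TopologicalSpace.isTopologicalBasis_of_isOpen_of_nhds ?_ ?_, ?_⟩
  · rintro _ ⟨L, rfl⟩
    have : cyl L = ⋂ p ∈ L.toFinset, (fun f : Γ => f.1 p.1) ⁻¹' {p.2} := by
      ext f; simp [cyl]
    rw [this]
    exact isOpen_biInter_finset fun p _ =>
      (isOpen_discrete _).preimage ((continuous_apply _).comp continuous_subtype_val)
  · intro f u hf hu
    obtain ⟨v, hv, rfl⟩ := isOpen_induced_iff.1 hu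
    obtain ⟨J, w, hw, hJ⟩ := isOpen_pi_iff.1 hv f.1 hf
    refine ⟨_, ⟨J.toList.map fun i => (i, f.1 i), rfl⟩, ?_, fun g hg => hJ fun i hi => ?_⟩
    · intro p hp
      obtain ⟨i, -, rfl⟩ := List.mem_map.1 hp
      rfl
    · have := hg (i, f.1 i) (List.mem_map.2 ⟨i, Finset.mem_toList.2 hi, rfl⟩)
      change g.1 i = f.1 i at this
      change g.1 i ∈ w i
      rw [this]
      exact (hw i hi).2
  · refine Cardinal.mk_range_le.trans ((Cardinal.mk_list_le_max _).trans (max_le (le_max_left _ _) ?_))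
    rw [Cardinal.mk_prod, Cardinal.lift_id, Cardinal.lift_id]
    refine (Cardinal.mul_le_max _ _).trans (max_le (max_le (le_max_right _ _) ?_) (le_max_left _ _))
    exact Cardinal.mk_le_aleph0.trans (le_max_left _ _)

variable {Ω : Type} [LinearOrder Ω] [hΩ : IsOmegaOne Ω]

theorem exists_ladder (δ : Ω) : ∃ e : ℕ → Ω, (∃ a, a < δ) →
    Monotone e ∧ (∀ k, e k < δ) ∧ ∀ ξ < δ, ∃ k, ξ ≤ e k := by
  by_cases h : ∃ a, a < δ
  · obtain ⟨a, ha⟩ := h
    have := (hΩ.cnt δ).to_subtype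
    have : Nonempty (Iio δ) := ⟨⟨a, ha⟩⟩
    obtain ⟨u, hu⟩ := exists_surjective_nat (Iio δ)
    refine ⟨fun k => (partialSups u k).1, fun _ => ⟨fun i j hij => (partialSups u).monotone hij,
      fun k => (partialSups u k).2, fun ξ hξ => ?_⟩⟩
    obtain ⟨k, hk⟩ := hu ⟨ξ, hξ⟩
    have h1 := le_partialSups u k
    rw [hk] at h1
    exact ⟨k, h1⟩
  · exact ⟨fun _ => δ, fun h' => absurd h' h⟩

/-- A monotone cofinal sequence below `δ`. -/
noncomputable def lad (δ : Ω) : ℕ → Ω := (exists_ladder δ).choose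

theorem exists_jumps (f : Ω → Ω) :
    ∃ δ, Monotone (lad δ) ∧ {k | f (lad δ k) ≤ lad δ (k + 1)}.Infinite := by
  choose g hg hg' using exists_cl f
  obtain ⟨δ, ha, hδ⟩ := exists_cl g (Classical.arbitrary Ω)
  obtain ⟨h1, h2, h3⟩ := (exists_ladder δ).choose_spec ⟨_, ha⟩
  refine ⟨δ, h1, fun hfin => ?_⟩
  obtain ⟨k0, hk0⟩ := hfin.bddAbove
  have h4 : ∀ k, lad δ (k0 + 1 + k) < g (lad δ (k0 + 1)) := by
    intro k
    induction k with
    | zero => exact hg _
    | succ k ih =>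
      have h5 : ¬ f (lad δ (k0 + 1 + k)) ≤ lad δ (k0 + 1 + k + 1) := fun h => by
        have := hk0 h
        omega
      exact (not_le.1 h5).trans (hg' _ _ ih)
  obtain ⟨k, hk⟩ := h3 _ (hδ _ (h2 (k0 + 1)))
  exact absurd (hk.trans (h1 (show k ≤ k0 + 1 + k by omega))) (not_le.2 (h4 k))

/-- The points. -/
abbrev Idx (Ω : Type) (𝒮 : Set (Set ℕ)) : Type := List (Ω × Bool) ⊕ (Ω × 𝒮)

variable {𝒮 : Set (Set ℕ)}

open Classical in
/-- The entries of a point. -/
noncomputable def pt : Idx Ω 𝒮 → ℕ → Option (Ω × Bool)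
  | Sum.inl L, j => L[j]?
  | Sum.inr p, j => some (lad p.1 j, decide (j ∈ p.2.1))

/-- `f` depends only on the entries below `α`. -/
def Dep (α : Ω) (f : Idx Ω 𝒮 → C2) : Prop :=
  ∀ i i', (∀ j ξ b, ξ < α → (pt i j = some (ξ, b) ↔ pt i' j = some (ξ, b))) → f i = f i'

theorem Dep.mono {α β : Ω} {f : Idx Ω 𝒮 → C2} (h : Dep α f) (hαβ : α ≤ β) : Dep β f :=
  fun i i' hi => h i i' fun j ξ b hξ => hi j ξ b (hξ.trans_le hαβ)

/-- The group. -/
def Gr (Ω : Type) [LinearOrder Ω] [IsOmegaOne Ω] (𝒮 : Set (Set ℕ)) :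
    Subgroup (Idx Ω 𝒮 → C2) where
  carrier := {f | ∃ α, Dep α f}
  one_mem' := ⟨Classical.arbitrary Ω, fun _ _ _ => rfl⟩
  mul_mem' := by
    rintro f g ⟨α, hf⟩ ⟨β, hg⟩
    refine ⟨max α β, fun i i' hi => ?_⟩
    rw [Pi.mul_apply, Pi.mul_apply, hf.mono (le_max_left _ _) i i' hi,
      hg.mono (le_max_right _ _) i i' hi]
  inv_mem' := by
    rintro f ⟨α, hf⟩
    refine ⟨α, fun i i' hi => ?_⟩
    rw [Pi.inv_apply, Pi.inv_apply, hf i i' hi]

theorem omega_bounded (H : Subgroup (Gr Ω 𝒮)) (hH : Countable H) :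
    IsCompact (closure (H : Set (Gr Ω 𝒮))) := by
  choose a ha using fun f : Gr Ω 𝒮 => f.2
  obtain ⟨α, hα⟩ := exists_ub (countable_range fun f : H => a f.1)
  have hKc : IsClosed {f : Idx Ω 𝒮 → C2 | Dep α f} := by
    simp only [Dep, setOf_forall]
    exact isClosed_iInter fun i => isClosed_iInter fun i' => isClosed_iInter fun _ =>
      isClosed_eq (continuous_apply _) (continuous_apply _)
  have hK' : IsCompact ((Subtype.val : Gr Ω 𝒮 → Idx Ω 𝒮 → C2) ⁻¹' {f | Dep α f}) := by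
    rw [Subtype.isCompact_iff, image_preimage_eq_of_subset]
    · exact hKc.isCompact
    · exact fun f hf => ⟨⟨f, α, hf⟩, rfl⟩
  refine hK'.of_isClosed_subset isClosed_closure ?_
  refine closure_minimal (fun f hf => ?_) (hKc.preimage continuous_subtype_val)
  exact (ha f).mono (hα _ ⟨⟨f, hf⟩, rfl⟩).le

/-- The move of player O. -/
def mv (𝒮 : Set (Set ℕ)) (τ : Σ k : ℕ, Fin (k + 1) → Ω) : Set (Gr Ω 𝒮) :=
  {f | ∀ c : Fin (τ.1 + 1) → Bool,
    f.1 (Sum.inl (List.ofFn fun j => (τ.2 j, c j))) = sg (c (Fin.last _))}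

theorem mv_open (τ : Σ k : ℕ, Fin (k + 1) → Ω) : IsOpen (mv 𝒮 τ) := by
  simp only [mv, setOf_forall]
  exact isOpen_iInter_of_finite fun c =>
    IsOpen.preimage (f := fun f : Gr Ω 𝒮 => f.1 (Sum.inl (List.ofFn fun j => (τ.2 j, c j))))
      ((continuous_apply _).comp continuous_subtype_val) (isOpen_discrete {sg (c (Fin.last _))})

theorem mv_nonempty (τ : Σ k : ℕ, Fin (k + 1) → Ω) : (mv 𝒮 τ).Nonempty := by
  classical
  obtain ⟨k, u⟩ := τ
  obtain ⟨α, hα⟩ := exists_ub (countable_singleton (u (Fin.last k)))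
  refine ⟨⟨fun i => sg (decide (pt i k = some (u (Fin.last k), true))), α, fun i i' hi => ?_⟩,
    fun c => ?_⟩
  · simp only [hi k _ true (hα _ rfl)]
  · have : pt (𝒮 := 𝒮) (Sum.inl (List.ofFn fun j => (u j, c j))) k =
        some (u (Fin.last k), c (Fin.last k)) := by
      simp only [pt, List.getElem?_ofFn, Nat.lt_succ_self, dif_pos]
      rfl
    simp only [this]
    cases c (Fin.last k) <;> simp

theorem countable_le (ξ : Ω) : {τ : Σ k : ℕ, Fin (k + 1) → Ω | ∀ j, τ.2 j ≤ ξ}.Countable := by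
  have : {τ : Σ k : ℕ, Fin (k + 1) → Ω | ∀ j, τ.2 j ≤ ξ} ⊆
      ⋃ k : ℕ, Sigma.mk k '' {u : Fin (k + 1) → Ω | ∀ j, u j ∈ Iic ξ} :=
    fun τ hτ => mem_iUnion.2 ⟨τ.1, τ.2, hτ, rfl⟩
  exact (countable_iUnion fun k => (countable_pi fun _ => cnt_Iic ξ).image _).mono this

theorem negative (s : {U : Set (Gr Ω 𝒮) // IsOpen U ∧ U.Nonempty} → Gr Ω 𝒮)
    (hs : ∀ U, s U ∈ U.1)
    (hwin : ∀ U : ℕ → {U : Set (Gr Ω 𝒮) // IsOpen U ∧ U.Nonempty},
      ∃ (φ : ℕ → ℕ) (a : Gr Ω 𝒮), StrictMono φ ∧ Tendsto (fun k => s (U (φ k))) atTop (𝓝 a)) :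
    Unsplit 𝒮 := by
  classical
  let x : (Σ k : ℕ, Fin (k + 1) → Ω) → Gr Ω 𝒮 := fun τ => s ⟨mv 𝒮 τ, mv_open τ, mv_nonempty τ⟩
  have hx : ∀ τ, x τ ∈ mv 𝒮 τ := fun τ => hs ⟨mv 𝒮 τ, mv_open τ, mv_nonempty τ⟩
  choose β hβ using fun τ => (x τ).2
  choose f hf using fun ξ : Ω => exists_ub ((countable_le ξ).image β)
  obtain ⟨δ, hmono, hinf⟩ := exists_jumps f
  let τ : ℕ → Σ k : ℕ, Fin (k + 1) → Ω := fun k => ⟨k, fun j => lad δ j⟩
  have key : ∀ k, f (lad δ k) ≤ lad δ (k + 1) → ∀ S : 𝒮,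
      (x (τ k)).1 (Sum.inr (δ, S)) = sg (decide (k ∈ S.1)) := by
    intro k hk S
    have h1 : β (τ k) < lad δ (k + 1) :=
      (hf _ _ ⟨τ k, fun j => hmono (Nat.lt_succ_iff.1 j.2), rfl⟩).trans_le hk
    have h2 := hx (τ k) fun j => decide ((j : ℕ) ∈ S.1)
    refine (hβ (τ k) _ _ fun j ξ b hξ => ?_).trans h2
    by_cases hj : j < k + 1
    · simp only [pt, τ, List.getElem?_ofFn, hj, dif_pos]
    · simp only [pt, τ, List.getElem?_ofFn, hj, dif_neg, not_false_eq_true, reduceCtorEq,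
        iff_false]
      intro h3
      have h4 : lad δ j = ξ := congrArg Prod.fst (Option.some.inj h3)
      exact absurd (hξ.trans h1) (not_lt.2 (h4 ▸ hmono (not_lt.1 hj)))
  have hν := Nat.nth_strictMono hinf
  obtain ⟨φ, a, hφ, hlim⟩ := hwin fun n =>
    ⟨mv 𝒮 (τ (Nat.nth (fun k => f (lad δ k) ≤ lad δ (k + 1)) n)), mv_open _, mv_nonempty _⟩
  refine unsplit_of_eventually (hν.comp hφ) fun S hS => ?_
  have h1 := (((continuous_apply (Sum.inr (δ, ⟨S, hS⟩) : Idx Ω 𝒮)).comp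
    continuous_subtype_val).tendsto a).comp hlim
  rw [nhds_discrete, tendsto_pure] at h1
  have h2 : ∀ᶠ n in atTop, sg (decide (Nat.nth (fun k => f (lad δ k) ≤ lad δ (k + 1)) (φ n) ∈ S)) =
      a.1 (Sum.inr (δ, ⟨S, hS⟩)) := by
    filter_upwards [h1] with n hn
    exact (key _ (Nat.nth_mem_of_infinite hinf (φ n)) ⟨S, hS⟩).symm.trans hn
  by_cases ha : a.1 (Sum.inr (δ, ⟨S, hS⟩)) = sg true
  · left
    filter_upwards [h2] with n hn
    exact of_decide_eq_true (sg_inj (hn.trans ha))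
  · right
    filter_upwards [h2] with n hn hc
    exact ha (hn.symm.trans (congrArg sg (decide_eq_true hc)))

theorem exists_omegaOne' : ∃ (Ω : Type) (_ : LinearOrder Ω) (_ : IsOmegaOne Ω),
    Cardinal.mk Ω = Cardinal.aleph 1 := by
  refine ⟨(Cardinal.aleph 1).ord.ToType, inferInstance, ⟨inferInstance, ?_, fun a => ?_⟩,
    Cardinal.mk_ord_toType _⟩
  · rw [← Cardinal.aleph0_lt_mk_iff, Cardinal.mk_ord_toType]
    exact Cardinal.aleph0_lt_aleph_one
  · rw [← Cardinal.le_aleph0_iff_set_countable, ← Order.lt_succ_iff, Cardinal.succ_aleph0]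
    exact Cardinal.mk_Iio_toType_ord_lt a

theorem mk_Idx_le {κ : Cardinal.{0}} (h0 : Cardinal.aleph0 ≤ κ) (h1 : Cardinal.mk Ω ≤ κ)
    (h2 : Cardinal.mk 𝒮 ≤ κ) : Cardinal.mk (Idx Ω 𝒮) ≤ κ := by
  rw [Cardinal.mk_sum, Cardinal.lift_id, Cardinal.lift_id]
  refine Cardinal.add_le_of_le h0 ((Cardinal.mk_list_le_max _).trans (max_le h0 ?_)) ?_
  · rw [Cardinal.mk_prod, Cardinal.lift_id, Cardinal.lift_id]
    exact (Cardinal.mul_le_max _ _).trans
      (max_le (max_le h1 (Cardinal.mk_le_aleph0.trans h0)) h0)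
  · rw [Cardinal.mk_prod, Cardinal.lift_id, Cardinal.lift_id]
    exact (Cardinal.mul_le_max _ _).trans (max_le (max_le h1 h2) h0)

theorem weight_iff (κ : Cardinal.{0}) :
    (∀ (G : Type) [Group G] [TopologicalSpace G] [IsTopologicalGroup G] [T2Space G],
      (∃ B : Set (Set G), TopologicalSpace.IsTopologicalBasis B ∧ Cardinal.mk B ≤ κ) →
      (∀ H : Subgroup G, Countable H → IsCompact (closure (H : Set G))) →
      ∃ s : {U : Set G // IsOpen U ∧ U.Nonempty} → G,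
        (∀ U, s U ∈ U.1) ∧
        ∀ U : ℕ → {U : Set G // IsOpen U ∧ U.Nonempty},
          ∃ (φ : ℕ → ℕ) (a : G), StrictMono φ ∧ Tendsto (fun k => s (U (φ k))) atTop (𝓝 a)) ↔
    ∀ 𝒮 : Set (Set ℕ), Cardinal.mk 𝒮 ≤ κ →
      ∃ A : Set ℕ, A.Infinite ∧ ∀ S ∈ 𝒮, (A ∩ S).Finite ∨ (A \ S).Finite := by
  constructor
  · intro h 𝒮 h𝒮
    by_cases hc : 𝒮.Countable
    · exact unsplit_of_countable hc
    have h1 : Cardinal.aleph 1 ≤ κ :=
      (not_lt.1 fun h' => hc ((Cardinal.countable_iff_lt_aleph_one _).2 h')).trans h𝒮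
    have h0 : Cardinal.aleph0 ≤ κ := Cardinal.aleph0_lt_aleph_one.le.trans h1
    obtain ⟨Ω, _, _, hΩ⟩ := exists_omegaOne'
    obtain ⟨B, hB, hB'⟩ := exists_basis (Gr Ω 𝒮)
    obtain ⟨s, hs, hwin⟩ := h (Gr Ω 𝒮)
      ⟨B, hB, hB'.trans (max_le h0 (mk_Idx_le h0 (hΩ ▸ h1) h𝒮))⟩ omega_bounded
    exact negative s hs hwin
  · rintro h G _ _ _ _ ⟨B, hB, hB'⟩ hG
    refine ⟨fun U => U.2.2.some, fun U => U.2.2.some_mem, fun U => ?_⟩
    exact positive hB (fun 𝒮 h𝒮 => h 𝒮 (h𝒮.trans hB')) hG fun n => (U n).2.2.some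

theorem exists_split {A : Set ℕ} (hA : A.Infinite) :
    ∃ S : Set ℕ, (A ∩ S).Infinite ∧ (A \ S).Infinite := by
  have hf := (hA.natEmbedding A).injective
  have hv : Function.Injective fun n => ((hA.natEmbedding A n : A) : ℕ) :=
    Subtype.val_injective.comp hf
  refine ⟨range fun n => ((hA.natEmbedding A (2 * n) : A) : ℕ), ?_, ?_⟩
  · exact infinite_of_injective_forall_mem (f := fun n => ((hA.natEmbedding A (2 * n) : A) : ℕ))
      (fun m n h => by have := hv h; omega) fun n => ⟨Subtype.property _, n, rfl⟩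
  · refine infinite_of_injective_forall_mem
      (f := fun n => ((hA.natEmbedding A (2 * n + 1) : A) : ℕ))
      (fun m n h => by have := hv h; omega) fun n => ⟨Subtype.property _, ?_⟩
    rintro ⟨m, hm⟩
    have := hv hm
    omega

end Pool.Agent.P.MP_13df43_gt.SW
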